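import Mathlib

namespace Pool.Agent.Results.MP_417677_al.Counter

open CoxeterMatrix
open scoped commutatorElement

/-- The Coxeter diagram: `s ≠ t` are joined when `m_{st} ≥ 3` (Mathlib writes `0` for `∞`). -/
def diagram {S : Type} (M : CoxeterMatrix S) : SimpleGraph S :=
  SimpleGraph.fromRel fun s t => 3 ≤ M s t ∨ M s t = 0

abbrev W := H₃.Group
noncomputable abbrev cs : CoxeterSystem H₃ W := H₃.toCoxeterSystem

def rule : ℕ → List (Fin 3) × List (Fin 3)
  | 0 => ([0, 0], [])
  | 1 => ([1, 1], [])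
  | 2 => ([2, 2], [])
  | 3 => ([0, 1, 0], [1, 0, 1])
  | 4 => ([1, 0, 1], [0, 1, 0])
  | 5 => ([1, 2, 1, 2, 1], [2, 1, 2, 1, 2])
  | 6 => ([2, 1, 2, 1, 2], [1, 2, 1, 2, 1])
  | 7 => ([0, 2], [2, 0])
  | 8 => ([2, 0], [0, 2])
  | _ => ([], [])

lemma br1 : cs.wordProd [0, 1, 0] = cs.wordProd [1, 0, 1] :=
  (cs.wordProd_braidWord_eq 0 1).symm
lemma br2 : cs.wordProd [1, 2, 1, 2, 1] = cs.wordProd [2, 1, 2, 1, 2] :=
  (cs.wordProd_braidWord_eq 1 2).symm
lemma br3 : cs.wordProd [0, 2] = cs.wordProd [2, 0] := cs.wordProd_braidWord_eq 0 2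

lemma sq0 (i : Fin 3) : cs.wordProd [i, i] = cs.wordProd [] := by
  rw [cs.wordProd_cons, cs.wordProd_singleton, cs.simple_mul_simple_self, cs.wordProd_nil]

lemma rule_ok (r : ℕ) : cs.wordProd (rule r).1 = cs.wordProd (rule r).2 := by
  unfold rule
  split
  · exact sq0 0
  · exact sq0 1
  · exact sq0 2
  · exact br1
  · exact br1.symm
  · exact br2
  · exact br2.symm
  · exact br3
  · exact br3.symm
  · rfl

def step (w : List (Fin 3)) (x : ℕ × ℕ) : List (Fin 3) :=
  if w = w.take x.2 ++ (rule x.1).1 ++ w.drop (x.2 + (rule x.1).1.length) then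
    w.take x.2 ++ (rule x.1).2 ++ w.drop (x.2 + (rule x.1).1.length) else w

lemma step_ok (w : List (Fin 3)) (x : ℕ × ℕ) : cs.wordProd (step w x) = cs.wordProd w := by
  unfold step
  split_ifs with h
  · conv_rhs => rw [h]
    simp only [CoxeterSystem.wordProd_append, rule_ok]
  · rfl

lemma run_ok (c : List (ℕ × ℕ)) (w : List (Fin 3)) :
    cs.wordProd (c.foldl step w) = cs.wordProd w := by
  induction c generalizing w with
  | nil => rfl
  | cons x c ih => rw [List.foldl_cons, ih, step_ok]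

def c2 : List (ℕ × ℕ) := [(8, 2), (3, 0), (8, 8), (3, 6), (5, 2), (8, 6), (6, 7), (4, 11), (7, 13), (0, 14), (4, 5), (7, 1), (7, 7), (8, 4), (3, 2), (8, 10), (3, 8), (5, 4), (8, 8), (6, 9), (1, 13), (2, 12), (4, 7), (7, 3), (7, 9), (8, 6), (3, 4), (5, 0), (8, 4), (6, 5), (4, 9), (0, 11), (1, 10), (8, 8), (2, 9), (0, 8), (1, 7), (2, 6), (4, 3), (0, 5), (1, 4), (8, 2), (2, 3), (0, 2), (1, 1), (2, 0)]
def c0 : List (ℕ × ℕ) := [(8, 2), (3, 0), (8, 8), (3, 6), (5, 2), (8, 6), (6, 7), (4, 11), (7, 13), (0, 14), (8, 13), (3, 11), (5, 7), (7, 6), (6, 2), (4, 0), (4, 6), (7, 2), (7, 8), (8, 5), (3, 3), (8, 11), (3, 9), (5, 5), (8, 9), (6, 10), (1, 14), (2, 13), (4, 8), (7, 4), (7, 10), (8, 7), (3, 5), (5, 1), (8, 5), (6, 6), (4, 10), (0, 12), (1, 11), (8, 9), (2, 10), (0, 9), (1, 8), (2, 7), (4, 4), (0, 6), (1, 5), (8, 3), (2, 4), (0, 3), (1, 2), (2, 1), (0, 0)]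
def c1 : List (ℕ × ℕ) := [(8, 5), (3, 3), (8, 11), (3, 9), (5, 5), (8, 9), (6, 10), (1, 14), (4, 8), (7, 4), (7, 10), (8, 7), (3, 5), (5, 1), (8, 5), (6, 6), (4, 10), (7, 12), (0, 13), (4, 4), (7, 0), (7, 6), (8, 3), (3, 1), (8, 9), (3, 7), (5, 3), (8, 7), (6, 8), (1, 12), (2, 11), (4, 6), (7, 8), (3, 9), (1, 11), (7, 2), (8, 5), (3, 3), (5, 5), (8, 9), (2, 10), (0, 9), (1, 8), (2, 7), (7, 4), (6, 0), (4, 4), (0, 6), (1, 5), (8, 3), (2, 4), (0, 3), (1, 2), (2, 1), (1, 0)]
def c3 : List (ℕ × ℕ) := [(2, 14), (8, 2), (3, 0), (8, 8), (3, 6), (5, 2), (8, 6), (6, 7), (4, 11), (0, 13), (1, 12), (8, 10), (2, 11), (0, 10), (1, 9), (2, 8), (4, 5), (0, 7), (1, 6), (8, 4), (2, 5), (0, 4), (1, 3), (2, 2), (0, 1), (1, 0), (2, 0)]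

def zw : List (Fin 3) := [0, 1, 2, 0, 1, 2, 0, 1, 2, 0, 1, 2, 0, 1, 2]
noncomputable def z : W := cs.wordProd zw

lemma zz : z * z = 1 := by
  have h : c2.foldl step (zw ++ zw) = [] := by decide +kernel
  have := run_ok c2 (zw ++ zw)
  rw [h, cs.wordProd_append] at this
  exact this.symm

lemma zc (i : Fin 3) : z * cs.simple i = cs.simple i * z := by
  have key : ∀ c : List (ℕ × ℕ), c.foldl step (zw ++ [i] ++ zw ++ [i]) = [] →
      z * cs.simple i = cs.simple i * z := by
    intro c h
    have := run_ok c (zw ++ [i] ++ zw ++ [i])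
    rw [h] at this
    simp only [cs.wordProd_append, cs.wordProd_singleton, cs.wordProd_nil] at this
    have h1 : z * cs.simple i * z * cs.simple i = 1 := this.symm
    have h2 := cs.simple_mul_simple_self i
    calc z * cs.simple i = z * cs.simple i * (z * z) := by rw [zz, mul_one]
      _ = (z * cs.simple i * z * cs.simple i) * (cs.simple i)⁻¹ * z := by group
      _ = cs.simple i * z := by rw [h1, cs.inv_simple, one_mul]
  fin_cases i
  · exact key c0 (by decide +kernel)
  · exact key c1 (by decide +kernel)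
  · exact key c3 (by decide +kernel)

lemma zcomm (w : W) : z * w = w * z := by
  induction w using cs.simple_induction with
  | simple i => exact zc i
  | one => simp
  | mul a b ha hb => rw [← mul_assoc, ha, mul_assoc, hb, mul_assoc]

abbrev D := DihedralGroup 4
abbrev H := D × W

noncomputable def f : W →* H := cs.lift ⟨fun i => (DihedralGroup.r 2, cs.simple i * z), by
  intro i j
  have h1 : (DihedralGroup.r 2 * DihedralGroup.r 2 : D) = 1 := by decide
  have h2 : cs.simple i * z * (cs.simple j * z) = cs.simple i * cs.simple j := by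
    rw [mul_assoc, ← mul_assoc z, zc, mul_assoc, zz, mul_one]
  ext
  · simp only [Prod.mk_mul_mk, h1, Prod.pow_mk, one_pow, Prod.fst_one]
  · simp only [Prod.mk_mul_mk, h2, Prod.pow_mk, cs.simple_mul_simple_pow, Prod.snd_one]⟩

lemma f_simple (i : Fin 3) : f (cs.simple i) = (DihedralGroup.r 2, cs.simple i * z) :=
  cs.lift_apply_simple _ i

lemma f_cases (w : W) : f w = (1, w) ∨ f w = (DihedralGroup.r 2, w * z) := by
  have h1 : (DihedralGroup.r 2 * DihedralGroup.r 2 : D) = 1 := by decide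
  induction w using cs.simple_induction with
  | simple i => exact Or.inr (f_simple i)
  | one => left; simp; rfl
  | mul a b ha hb =>
    rw [map_mul]
    rcases ha with ha | ha <;> rcases hb with hb | hb <;> rw [ha, hb, Prod.mk_mul_mk]
    · left; simp
    · right; simp [mul_assoc]
    · right; rw [mul_one, mul_assoc, zcomm, mul_assoc]
    · left; rw [h1, mul_assoc, ← mul_assoc z, zcomm, mul_assoc, zz, mul_one]

lemma f_inj : Function.Injective f := by
  rw [injective_iff_map_eq_one]
  intro w hw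
  rcases f_cases w with h | h
  · rw [h] at hw; exact congrArg Prod.snd hw
  · rw [h] at hw
    have : (DihedralGroup.r 2 : D) = 1 := congrArg Prod.fst hw
    exact absurd this (by decide)

lemma f_z : f z = (DihedralGroup.r 2, 1) := by
  rcases f_cases z with h | h
  · exfalso
    have h1 : (f z).1 = DihedralGroup.r 2 := by
      simp only [z, zw, CoxeterSystem.wordProd, List.map, List.prod_cons, List.prod_nil, map_mul,
        map_one, Prod.fst_mul, f_simple, Prod.fst_one]
      decide
    rw [h] at h1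
    exact absurd h1 (by decide)
  · rw [h, zz]

lemma ab_simple (A : Type) [CommGroup A] (g : W →* A) (i : Fin 3) : g (cs.simple i * z) = 1 := by
  have sq : ∀ j, g (cs.simple j) * g (cs.simple j) = 1 := fun j => by
    rw [← map_mul, cs.simple_mul_simple_self, map_one]
  have sq' : ∀ j k, (g (cs.simple j) * g (cs.simple k)) ^ 2 = 1 := fun j k => by
    rw [mul_pow, pow_two, pow_two, sq, sq, one_mul]
  have h01 : (g (cs.simple 0) * g (cs.simple 1)) ^ 3 = 1 := by
    rw [← map_mul, ← map_pow]; exact (congrArg g (cs.simple_mul_simple_pow 0 1)).trans g.map_one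
  have h12 : (g (cs.simple 1) * g (cs.simple 2)) ^ 5 = 1 := by
    rw [← map_mul, ← map_pow]; exact (congrArg g (cs.simple_mul_simple_pow 1 2)).trans g.map_one
  rw [pow_succ, sq', one_mul] at h01
  rw [show 5 = 2 * 2 + 1 from rfl, pow_succ, pow_mul, sq', one_pow, one_mul] at h12
  have e0 : g (cs.simple 0) = g (cs.simple 1) := by
    rw [eq_inv_of_mul_eq_one_left h01, ← eq_inv_of_mul_eq_one_left (sq 1)]
  have e2 : g (cs.simple 2) = g (cs.simple 1) := by
    rw [eq_inv_of_mul_eq_one_right h12, ← eq_inv_of_mul_eq_one_left (sq 1)]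
  have ei : g (cs.simple i) = g (cs.simple 1) := by
    fin_cases i
    · exact e0
    · rfl
    · exact e2
  simp only [z, zw, CoxeterSystem.wordProd, List.map, List.prod_cons, List.prod_nil, map_mul,
    map_one, e0, e2, ei, ← mul_assoc, sq, one_mul]

lemma range_eq : f.range = commutator H := by
  apply le_antisymm
  · rintro _ ⟨w, rfl⟩
    induction w using cs.simple_induction with
    | simple i =>
      rw [f_simple]
      have e : ((DihedralGroup.r 2, cs.simple i * z) : H) =
          ⁅((DihedralGroup.r 1, 1) : H), ((DihedralGroup.sr 0, 1) : H)⁆ * (1, cs.simple i * z) := by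
        ext
        · show DihedralGroup.r 2 = ⁅(DihedralGroup.r 1 : D), DihedralGroup.sr 0⁆ * 1
          rw [commutatorElement_def]; decide
        · show cs.simple i * z = ⁅(1 : W), 1⁆ * (cs.simple i * z)
          simp
      rw [e]
      refine Subgroup.mul_mem _ (Subgroup.commutator_mem_commutator (Subgroup.mem_top _) (Subgroup.mem_top _)) ?_
      rw [← Abelianization.ker_of, MonoidHom.mem_ker]
      exact ab_simple _ (Abelianization.of.comp (MonoidHom.inr D W)) i
    | one => simp
    | mul a b ha hb => rw [map_mul]; exact Subgroup.mul_mem _ ha hb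
  · rw [commutator_def, Subgroup.commutator_le]
    rintro ⟨d1, w1⟩ - ⟨d2, w2⟩ -
    have hd : ∀ d1 d2 : D, d1 * d2 * d1⁻¹ * d2⁻¹ = 1 ∨ d1 * d2 * d1⁻¹ * d2⁻¹ = DihedralGroup.r 2 := by
      decide +kernel
    have hw : f ⁅w1, w2⁆ = (1, ⁅w1, w2⁆) := by
      rcases f_cases ⁅w1, w2⁆ with h | h
      · exact h
      · exfalso
        have h1 : (f ⁅w1, w2⁆).1 = 1 := by
          rw [map_commutatorElement, commutatorElement_def]
          rcases f_cases w1 with a | a <;> rcases f_cases w2 with b | b <;> rw [a, b] <;>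
            simp only [Prod.fst_mul, Prod.fst_inv] <;> decide
        rw [h] at h1
        exact absurd (show (DihedralGroup.r 2 : D) = 1 from h1) (by decide)
    rcases hd d1 d2 with h | h
    · exact ⟨⁅w1, w2⁆, by rw [hw, ← h]; rfl⟩
    · refine ⟨z * ⁅w1, w2⁆, ?_⟩
      rw [map_mul, hw, f_z, ← h, Prod.mk_mul_mk, mul_one, one_mul]; rfl

def pm : Fin 3 → Equiv.Perm (Fin 5) :=
  ![Equiv.swap 1 2 * Equiv.swap 3 4, Equiv.swap 0 1 * Equiv.swap 3 4,
    Equiv.swap 1 3 * Equiv.swap 2 4]

noncomputable def rho : W →* Equiv.Perm (Fin 5) := cs.lift ⟨pm, by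
  intro i j
  revert i j
  decide +kernel⟩

theorem result : ∃ (S : Type) (M : CoxeterMatrix S), (diagram M).Connected ∧
    IsEmpty (M.Group ≃* Multiplicative (ZMod 2)) ∧
    ∃ (H : Type) (_ : Group H), Nonempty (commutator H ≃* M.Group) := by
  refine ⟨Fin 3, H₃, ?_, ⟨fun e => ?_⟩, H, inferInstance,
    ⟨(MulEquiv.subgroupCongr range_eq.symm).trans (MonoidHom.ofInjective f_inj).symm⟩⟩
  · have h01 : (diagram H₃).Adj 0 1 := by
      unfold diagram; rw [SimpleGraph.fromRel_adj]; decide
    have h12 : (diagram H₃).Adj 1 2 := by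
      unfold diagram; rw [SimpleGraph.fromRel_adj]; decide
    have h : ∀ i, (diagram H₃).Reachable 1 i := by
      intro i
      fin_cases i
      · exact h01.symm.reachable
      · rfl
      · exact h12.reachable
    exact ⟨fun i j => (h i).symm.trans (h j)⟩
  · have h : cs.simple 0 * cs.simple 1 = cs.simple 1 * cs.simple 0 := by
      apply e.injective
      rw [map_mul, map_mul, mul_comm]
    have h2 := congrArg rho h
    rw [map_mul, map_mul] at h2
    have r0 : rho (cs.simple 0) = pm 0 := cs.lift_apply_simple _ 0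
    have r1 : rho (cs.simple 1) = pm 1 := cs.lift_apply_simple _ 1
    rw [r0, r1] at h2
    revert h2
    decide +kernel

end Pool.Agent.Results.MP_417677_al.Counter
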